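import Pool.Agent.Helper22_DEN.Stmt

/-!
# LEV: elements of `G` which are unipotent for the grading of a dominant `l` (MP_eadad4_nt)
-/

open scoped BigOperators

namespace Pool.Agent.DEN.H64

variable {r : ℕ} {C : Matrix (Fin r) (Fin r) ℤ} {K : Type} [Field K]

/-- `l`-unipotent elements -/
def LUni (l : Fin r → ℤ) (g : grp C K) : Prop :=
  ∀ (k : ℤ) (v : LieV C (FF K)), Fil l k v → Fil l (k + 1) (g.1 v - v)

/-- elements preserving the filtration -/
def PFil (l : Fin r → ℤ) (g : grp C K) : Prop :=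
  ∀ (k : ℤ) (v : LieV C (FF K)), Fil l k v → Fil l k (g.1 v)

/-- homogeneous vectors -/
def Hm (l : Fin r → ℤ) (k : ℤ) (v : LieV C (FF K)) : Prop :=
  (k ≠ 0 → v.1 = 0) ∧ ∀ β : Rt C, ip C β.1 l ≠ k → v.2 β = 0

/-- elements preserving the grading -/
def PHm (l : Fin r → ℤ) (g : grp C K) : Prop :=
  ∀ (k : ℤ) (v : LieV C (FF K)), Hm l k v → Hm l k (g.1 v)

theorem fil_add {l : Fin r → ℤ} {k : ℤ} {v w : LieV C (FF K)} (hv : Fil l k v) (hw : Fil l k w) :
    Fil l k (v + w) := by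
  refine ⟨fun hk => ?_, fun β hβ => ?_⟩
  · rw [Prod.fst_add, hv.1 hk, hw.1 hk, add_zero]
  · rw [Prod.snd_add, Pi.add_apply, hv.2 β hβ, hw.2 β hβ, add_zero]

theorem fil_succ {l : Fin r → ℤ} {k : ℤ} {v : LieV C (FF K)} (hv : Fil l (k + 1) v) :
    Fil l k v := by
  refine ⟨fun hk => hv.1 (by omega), fun β hβ => hv.2 β (by omega)⟩

theorem fil_crd {l : Fin r → ℤ} {k : ℤ} {v : LieV C (FF K)} (hv : Fil l k v) {x : Fin r → ℤ}
    (hx : ip C x l < k) : crd v x = 0 := by
  unfold crd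
  split_ifs with h
  · exact hv.2 ⟨x, h⟩ hx
  · rfl

theorem hm_crd {l : Fin r → ℤ} {k : ℤ} {v : LieV C (FF K)} (hv : Hm l k v) {x : Fin r → ℤ}
    (hx : ip C x l ≠ k) : crd v x = 0 := by
  unfold crd
  split_ifs with h
  · exact hv.2 ⟨x, h⟩ hx
  · rfl

theorem pr_zero {v : LieV C (FF K)} (h : v.1 = 0) (β : Fin r → ℤ) : pr v β = 0 := by
  simp [pr, h]

theorem xg_luni (hC : SimplyLaced C) {l : Fin r → ℤ} (β : Rt C) (a : FF K)
    (hβ : 0 < ip C β.1 l) : LUni l (xg hC β a) := by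
  intro k v hv
  have hneg : ip C β.neg.1 l = - ip C β.1 l := by rw [Rt.neg_val, ip_neg_left]
  refine ⟨fun hk => ?_, fun γ hγ => ?_⟩
  · funext i
    rw [Prod.fst_sub, Pi.sub_apply, xg_apply, rootMap_fst, hv.2 β.neg (by omega)]
    simp
  · rw [Prod.snd_sub, Pi.sub_apply, xg_apply]
    by_cases h1 : γ = β
    · subst h1
      rw [rootMap_snd_self, hv.2 γ.neg (by omega), pr_zero (hv.1 (by omega))]
      simp
    · by_cases h2 : ip C β.1 γ.1 = 1
      · rw [rootMap_snd_one _ _ _ _ h2, fil_crd hv (by rw [ip_sub_left]; omega)]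
        simp
      · rw [rootMap_snd_other _ _ _ _ h1 h2]
        simp

theorem pfil_of_luni {l : Fin r → ℤ} {g : grp C K} (h : LUni l g) : PFil l g := by
  intro k v hv
  have h1 := fil_add hv (fil_succ (h k v hv))
  rwa [add_sub_cancel] at h1

theorem xg_phm (hC : SimplyLaced C) {l : Fin r → ℤ} (β : Rt C) (a : FF K)
    (hβ : ip C β.1 l = 0) : PHm l (xg hC β a) := by
  intro k v hv
  have hneg : ip C β.neg.1 l = - ip C β.1 l := by rw [Rt.neg_val, ip_neg_left]
  refine ⟨fun hk => ?_, fun γ hγ => ?_⟩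
  · funext i
    rw [xg_apply, rootMap_fst, hv.2 β.neg (by omega), hv.1 hk]
    simp
  · rw [xg_apply]
    by_cases h1 : γ = β
    · subst h1
      have hk : k ≠ 0 := by omega
      rw [rootMap_snd_self, hv.2 γ.neg (by omega), pr_zero (hv.1 hk), hv.2 γ hγ]
      simp
    · by_cases h2 : ip C β.1 γ.1 = 1
      · rw [rootMap_snd_one _ _ _ _ h2, hm_crd hv (by rw [ip_sub_left]; omega), hv.2 γ hγ]
        simp
      · rw [rootMap_snd_other _ _ _ _ h1 h2, hv.2 γ hγ]

theorem xg_pfil (hC : SimplyLaced C) {l : Fin r → ℤ} (β : Rt C) (a : FF K)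
    (hβ : 0 ≤ ip C β.1 l) : PFil l (xg hC β a) := by
  intro k v hv
  have hneg : ip C β.neg.1 l = - ip C β.1 l := by rw [Rt.neg_val, ip_neg_left]
  refine ⟨fun hk => ?_, fun γ hγ => ?_⟩
  · funext i
    rw [xg_apply, rootMap_fst, hv.2 β.neg (by omega), hv.1 hk]
    simp
  · rw [xg_apply]
    by_cases h1 : γ = β
    · subst h1
      rw [rootMap_snd_self, hv.2 γ.neg (by omega), pr_zero (hv.1 (by omega)), hv.2 γ hγ]
      simp
    · by_cases h2 : ip C β.1 γ.1 = 1
      · rw [rootMap_snd_one _ _ _ _ h2, fil_crd hv (by rw [ip_sub_left]; omega), hv.2 γ hγ]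
        simp
      · rw [rootMap_snd_other _ _ _ _ h1 h2, hv.2 γ hγ]

theorem mul_apply (g h : grp C K) (v : LieV C (FF K)) : (g * h).1 v = g.1 (h.1 v) := rfl

theorem LUni.mul {l : Fin r → ℤ} {g h : grp C K} (hg : LUni l g) (hh : LUni l h) :
    LUni l (g * h) := by
  intro k v hv
  have h1 := hg k _ (pfil_of_luni hh k v hv)
  have h2 := fil_add h1 (hh k v hv)
  rw [mul_apply]
  rwa [sub_add_sub_cancel] at h2

theorem PFil.mul {l : Fin r → ℤ} {g h : grp C K} (hg : PFil l g) (hh : PFil l h) :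
    PFil l (g * h) := fun k v hv => hg k _ (hh k v hv)

theorem PHm.mul {l : Fin r → ℤ} {g h : grp C K} (hg : PHm l g) (hh : PHm l h) :
    PHm l (g * h) := fun k v hv => hg k _ (hh k v hv)

theorem luni_one {l : Fin r → ℤ} : LUni l (1 : grp C K) := by
  intro k v hv
  have : (1 : grp C K).1 v - v = 0 := sub_self v
  rw [this]
  exact ⟨fun _ => rfl, fun _ _ => rfl⟩

/-- elements of `U_l` are `l`-unipotent -/
theorem ul_luni (hC : SimplyLaced C) {l : Fin r → ℤ} {k : ℕ} {u : grp C K} (hu : u ∈ Ul C K l k) :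
    LUni l u ∧ LUni l u⁻¹ := by
  unfold Ul at hu
  induction hu using Subgroup.closure_induction with
  | mem x hx =>
    obtain ⟨β, a, h1, h2, h3⟩ := hx
    rw [eq_xg hC β a x h3, xg_inv]
    exact ⟨xg_luni hC β a h1, xg_luni hC β _ h1⟩
  | one => exact ⟨luni_one, by rw [inv_one]; exact luni_one⟩
  | mul x y hx hy h1 h2 =>
    refine ⟨h1.1.mul h2.1, ?_⟩
    rw [mul_inv_rev]
    exact h2.2.mul h1.2
  | inv x hx h1 => exact ⟨h1.2, by rw [inv_inv]; exact h1.1⟩

/-- the unipotent group of the Levi subgroup -/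
noncomputable def UL (C : Matrix (Fin r) (Fin r) ℤ) (K : Type) [Field K] (l : Fin r → ℤ) :
    Subgroup (grp C K) :=
  Subgroup.closure {g | ∃ (β : Rt C) (a : FF K), β.Pos ∧ ip C β.1 l = 0 ∧
    ∀ v, g.1 v = rootMap β a v}

theorem uL_phm (hC : SimplyLaced C) {l : Fin r → ℤ} {u : grp C K} (hu : u ∈ UL C K l) :
    PHm l u ∧ PHm l u⁻¹ := by
  unfold UL at hu
  induction hu using Subgroup.closure_induction with
  | mem x hx =>
    obtain ⟨β, a, h1, h2, h3⟩ := hx
    rw [eq_xg hC β a x h3, xg_inv]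
    exact ⟨xg_phm hC β a h2, xg_phm hC β _ h2⟩
  | one => exact ⟨fun k v hv => hv, by rw [inv_one]; exact fun k v hv => hv⟩
  | mul x y hx hy h1 h2 =>
    refine ⟨h1.1.mul h2.1, ?_⟩
    rw [mul_inv_rev]
    exact h2.2.mul h1.2
  | inv x hx h1 => exact ⟨h1.2, by rw [inv_inv]; exact h1.1⟩

theorem ht_pos {β : Rt C} (h : β.Pos) : 0 ≤ ht β := Finset.sum_nonneg fun i _ => h i

theorem xg_mem_ul (hC : SimplyLaced C) {l : Fin r → ℤ} {k : ℕ} {β : Rt C} (a : FF K)
    (h1 : 0 < ip C β.1 l) (h2 : (k : ℤ) ≤ ht β) : xg hC β a ∈ Ul C K l k :=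
  Subgroup.subset_closure ⟨β, a, h1, h2, fun _ => rfl⟩

/-- a single root element of the Levi part normalizes `U_l` -/
theorem conj_gen (hA : RelAStmt) (hB : RelBStmt) (hC : SimplyLaced C) {l : Fin r → ℤ} {β : Rt C}
    (a : FF K) (hpos : β.Pos) (hβ : ip C β.1 l = 0) {u : grp C K} (hu : u ∈ Ul C K l 0) :
    xg hC β a * u * (xg hC β a)⁻¹ ∈ Ul C K l 0 := by
  have hu' := hu
  unfold Ul at hu
  induction hu using Subgroup.closure_induction with
  | mem x hx =>
    obtain ⟨γ, b, h1, h2, h3⟩ := hx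
    have hx' := eq_xg hC γ b x h3
    subst hx'
    have hb := hC.ip_bound β γ
    by_cases h0 : 0 ≤ ip C β.1 γ.1
    · have hc := hA r C hC (FF K) β γ a b h0
      have hc' : xg hC β a * xg hC γ b = xg hC γ b * xg hC β a := Subtype.ext hc
      rw [hc', mul_inv_cancel_right]
      exact hu'
    · by_cases h4 : ip C β.1 γ.1 = -1
      · have hδ := hC.ip_add_self h4
        have hc := hB r C hC (FF K) β γ ⟨β.1 + γ.1, hδ⟩ a b h4 rfl
        have hc' : xg hC β a * xg hC γ b = xg hC γ b *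
            xg hC ⟨β.1 + γ.1, hδ⟩ (((eps C β.1 γ.1 : ℤ) : FF K) * a * b) * xg hC β a :=
          Subtype.ext hc
        rw [hc', mul_inv_cancel_right]
        refine mul_mem hu' (xg_mem_ul hC _ ?_ ?_)
        · show 0 < ip C (β.1 + γ.1) l
          rw [ip_add_left, hβ]
          omega
        · have : ht (⟨β.1 + γ.1, hδ⟩ : Rt C) = ht β + ht γ := by
            unfold ht
            simp only [Pi.add_apply, Finset.sum_add_distrib]
          rw [this]
          have := ht_pos hpos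
          omega
      · have h5 : ip C β.1 γ.1 = -2 := by omega
        have h6 := hC.ip_eq_neg_two h5
        rw [h6, Rt.neg_val, ip_neg_left, hβ] at h1
        omega
  | one => simp
  | mul x y hx hy h1 h2 =>
    have e : xg hC β a * (x * y) * (xg hC β a)⁻¹ =
        (xg hC β a * x * (xg hC β a)⁻¹) * (xg hC β a * y * (xg hC β a)⁻¹) := by group
    rw [e]
    exact mul_mem (h1 hx) (h2 hy)
  | inv x hx h1 =>
    have e : xg hC β a * x⁻¹ * (xg hC β a)⁻¹ = (xg hC β a * x * (xg hC β a)⁻¹)⁻¹ := by group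
    rw [e]
    exact inv_mem (h1 hx)

theorem conj_uL (hA : RelAStmt) (hB : RelBStmt) (hC : SimplyLaced C) {l : Fin r → ℤ}
    {b : grp C K} (hb : b ∈ UL C K l) :
    ∀ u ∈ Ul C K l 0, b * u * b⁻¹ ∈ Ul C K l 0 ∧ b⁻¹ * u * b ∈ Ul C K l 0 := by
  unfold UL at hb
  induction hb using Subgroup.closure_induction with
  | mem x hx =>
    obtain ⟨β, a, h1, h2, h3⟩ := hx
    intro u hu
    rw [eq_xg hC β a x h3]
    refine ⟨conj_gen hA hB hC a h1 h2 hu, ?_⟩
    have := conj_gen hA hB hC (-a) h1 h2 hu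
    rwa [← xg_inv, inv_inv] at this
  | one => intro u hu; simpa using hu
  | mul x y hx hy h1 h2 =>
    intro u hu
    constructor
    · have e : x * y * u * (x * y)⁻¹ = x * (y * u * y⁻¹) * x⁻¹ := by group
      rw [e]
      exact (h1 _ (h2 u hu).1).1
    · have e : (x * y)⁻¹ * u * (x * y) = y⁻¹ * (x⁻¹ * u * x) * y := by group
      rw [e]
      exact (h2 _ (h1 u hu).2).2
  | inv x hx h1 =>
    intro u hu
    rw [inv_inv]
    exact ⟨(h1 u hu).2, (h1 u hu).1⟩

theorem ip_nonneg (hS : RootSignStmt) (hC : SimplyLaced C) {l : Fin r → ℤ} (hl : IsDom C l)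
    {β : Rt C} (hβ : β.Pos) : 0 ≤ ip C β.1 l := by
  have hne : ∃ i, β.1 i ≠ 0 := by
    by_contra h
    push Not at h
    have : β.1 = 0 := funext h
    have h2 := β.2
    rw [this, ip_zero_left] at h2
    omega
  obtain ⟨i, hi⟩ := hne
  have h := (hS r C hC).2.2.2 β.1 l hl hβ i
  have h2 : 0 ≤ β.1 i * ip C (al i) l := mul_nonneg (hβ i) (hl i)
  omega

/-- `Ug = U_l U_L` -/
theorem ug_dec (hA : RelAStmt) (hB : RelBStmt) (hS : RootSignStmt) (hC : SimplyLaced C)
    {l : Fin r → ℤ} (hl : IsDom C l) {u : grp C K} (hu : u ∈ Ug C K) :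
    ∃ a ∈ Ul C K l 0, ∃ b ∈ UL C K l, u = a * b := by
  unfold Ug at hu
  induction hu using Subgroup.closure_induction with
  | mem x hx =>
    obtain ⟨β, a, h1, h3⟩ := hx
    have h0 := ip_nonneg hS hC hl h1
    rcases h0.lt_or_eq with h | h
    · exact ⟨x, Subgroup.subset_closure ⟨β, a, h, by simpa using ht_pos h1, h3⟩, 1, one_mem _,
        by simp⟩
    · exact ⟨1, one_mem _, x, Subgroup.subset_closure ⟨β, a, h1, h.symm, h3⟩, by simp⟩
  | one => exact ⟨1, one_mem _, 1, one_mem _, by simp⟩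
  | mul x y hx hy h1 h2 =>
    obtain ⟨a, ha, b, hb, rfl⟩ := h1
    obtain ⟨a', ha', b', hb', rfl⟩ := h2
    refine ⟨a * (b * a' * b⁻¹), mul_mem ha (conj_uL hA hB hC hb a' ha').1, b * b',
      mul_mem hb hb', by group⟩
  | inv x hx h1 =>
    obtain ⟨a, ha, b, hb, rfl⟩ := h1
    refine ⟨b⁻¹ * a⁻¹ * b, (conj_uL hA hB hC hb _ (inv_mem ha)).2, b⁻¹, inv_mem hb, by group⟩

theorem ug_pfil (hS : RootSignStmt) (hC : SimplyLaced C) {l : Fin r → ℤ} (hl : IsDom C l)
    {u : grp C K} (hu : u ∈ Ug C K) : PFil l u ∧ PFil l u⁻¹ := by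
  unfold Ug at hu
  induction hu using Subgroup.closure_induction with
  | mem x hx =>
    obtain ⟨β, a, h1, h3⟩ := hx
    have h0 := ip_nonneg hS hC hl h1
    rw [eq_xg hC β a x h3, xg_inv]
    exact ⟨xg_pfil hC β a h0, xg_pfil hC β _ h0⟩
  | one => exact ⟨fun k v hv => hv, by rw [inv_one]; exact fun k v hv => hv⟩
  | mul x y hx hy h1 h2 =>
    refine ⟨h1.1.mul h2.1, ?_⟩
    rw [mul_inv_rev]
    exact h2.2.mul h1.2
  | inv x hx h1 => exact ⟨h1.2, by rw [inv_inv]; exact h1.1⟩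

theorem EE_fil (l : Fin r → ℤ) (β : Rt C) : Fil l (ip C β.1 l) (EE β : LieV C (FF K)) := by
  refine ⟨fun _ => rfl, fun γ hγ => ?_⟩
  unfold EE
  simp only
  rw [if_neg]
  rintro rfl
  omega

/-- a monomial element preserving the filtration preserves the grading -/
theorem mono_phm (hC : SimplyLaced C) {l : Fin r → ℤ} {n : grp C K} (hn : IsMono hC n)
    (hf : PFil l n) : PHm l n := by
  obtain ⟨s, c, d, hcd, hneg, -, h2, h1⟩ := hn
  have hge : ∀ β : Rt C, ip C β.1 l ≤ ip C (s β).1 l := by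
    intro β
    by_contra hlt
    push Not at hlt
    have h3 := (hf _ _ (EE_fil (K := K) l β)).2 (s β) hlt
    rw [h2] at h3
    have h4 : (EE β : LieV C (FF K)).2 β = 1 := by
      unfold EE
      simp
    rw [h4, mul_one] at h3
    exact (hcd β).2 h3
  have heq : ∀ β : Rt C, ip C (s β).1 l = ip C β.1 l := by
    intro β
    have h3 := hge β.neg
    rw [hneg, Rt.neg_val, Rt.neg_val, ip_neg_left, ip_neg_left] at h3
    have := hge β
    omega
  intro k v hv
  refine ⟨fun hk => h1 v (hv.1 hk), fun γ hγ => ?_⟩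
  obtain ⟨β, rfl⟩ := s.surjective γ
  rw [h2, hv.2 β (by rw [heq] at hγ; exact hγ), mul_zero]

theorem lev (hBru : BruStmt) (hA : RelAStmt) (hB : RelBStmt) (hF : RootFinStmt)
    (hS : RootSignStmt) : LevStmt := by
  intro r C hC K _ l hl g hg
  obtain ⟨u, hu, n, hn, u', hu', hgu⟩ := hBru r C hC K g
  have hgl : LUni l g := hg
  have hnf : PFil l n := by
    have e : n = u⁻¹ * g * u'⁻¹ := by rw [hgu]; group
    rw [e]
    exact ((ug_pfil hS hC hl hu).2.mul (pfil_of_luni hgl)).mul (ug_pfil hS hC hl hu').2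
  have hnh := mono_phm hC hn hnf
  obtain ⟨a, ha, b, hb, rfl⟩ := ug_dec hA hB hS hC hl hu
  obtain ⟨a', ha', b', hb', rfl⟩ := ug_dec hA hB hS hC hl hu'
  set m : grp C K := b * n * b' with hm
  set a'' : grp C K := b'⁻¹ * a' * b' with ha''
  have ha''m : a'' ∈ Ul C K l 0 := (conj_uL hA hB hC hb' a' ha').2
  have e1 : g = a * m * a'' := by
    rw [hgu, hm, ha'']; group
  have e2 : m = a⁻¹ * g * a''⁻¹ := by rw [e1]; group
  have hml : LUni l m := by
    rw [e2]
    exact ((ul_luni hC ha).2.mul hgl).mul (ul_luni hC ha''m).2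
  have hmh : PHm l m := ((uL_phm hC hb).1.mul hnh).mul (uL_phm hC hb').1
  have hfix : ∀ (k : ℤ) (v : LieV C (FF K)), Hm l k v → m.1 v = v := by
    intro k v hv
    have h1 : Fil l k v := by
      refine ⟨fun hk => hv.1 (by omega), fun β hβ => hv.2 β (by omega)⟩
    have h2 := hml k v h1
    have h3 := hmh k v hv
    have h4 : m.1 v - v = 0 := by
      refine Prod.ext ?_ ?_
      · by_cases hk : 0 < k + 1
        · exact h2.1 hk
        · have hk0 : k ≠ 0 := by omega
          rw [Prod.fst_sub, h3.1 hk0, hv.1 hk0, sub_self]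
          rfl
      · funext β
        by_cases hβ : ip C β.1 l < k + 1
        · exact h2.2 β hβ
        · rw [Prod.snd_sub, Pi.sub_apply, h3.2 β (by omega), hv.2 β (by omega), sub_self]
          rfl
    exact sub_eq_zero.1 h4
  have hfin := hF r C hC
  classical
  have : Fintype (Rt C) := Fintype.ofFinite _
  have hm1 : m = 1 := by
    refine grp_ext fun v => ?_
    have e3 : v = ((v.1, 0) : LieV C (FF K)) +
        ∑ β : Rt C, ((0, Pi.single β (v.2 β)) : LieV C (FF K)) := by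
      refine Prod.ext ?_ ?_
      · rw [Prod.fst_add, Prod.fst_sum]
        simp
      · rw [Prod.snd_add, Prod.snd_sum]
        funext γ
        simp [Finset.sum_apply, Pi.single_apply]
    show m.1 v = v
    have h5 : m.1 ((v.1, 0) : LieV C (FF K)) = (v.1, 0) := by
      refine hfix 0 _ ⟨fun h => absurd rfl h, fun β _ => rfl⟩
    have h6 : ∀ β : Rt C, m.1 ((0, Pi.single β (v.2 β)) : LieV C (FF K)) =
        (0, Pi.single β (v.2 β)) := by
      intro β
      refine hfix (ip C β.1 l) _ ⟨fun _ => rfl, fun γ hγ => ?_⟩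
      have : γ ≠ β := by rintro rfl; exact hγ rfl
      simp [this]
    conv_lhs => rw [e3]
    rw [map_add, map_sum, h5, Finset.sum_congr rfl fun β _ => h6 β]
    exact e3.symm
  rw [e1, hm1, mul_one]
  exact mul_mem ha ha''m

end Pool.Agent.DEN.H64
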