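import Pool.Agent.Helper22_DEN.Stmt

/-!
# RK1: the rank one computation (MP_eadad4_nt)
-/

open scoped BigOperators

namespace Pool.Agent.DEN.H64

variable {r : ℕ} {C : Matrix (Fin r) (Fin r) ℤ} {K : Type} [Field K]

theorem smul_pt (g h : grp C K) : g • pt h = pt (g * h) := rfl

theorem pt_mul_mem (g k : grp C K) (hk : k ∈ maxK C K) : pt (g * k) = pt g :=
  QuotientGroup.mk_mul_of_mem g hk

theorem rk1 (hT : TorStmt) (hRC : RelCStmt) (hRH : RelHStmt) (hM : MaxStmt) (hF : Fld1Stmt) :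
    Rk1Stmt := by
  intro r C hC K _ i b l g hg
  obtain ⟨T1, T2, T3, T4, T5⟩ := hT r C hC K
  obtain ⟨M1, M2, M3, M4⟩ := hM r C hC K
  obtain ⟨F1, F2, F3, F4, F5, F6, F7, F8, F9⟩ := hF K
  have hcomm : ip C l (al i) = ip C (al i) l := hC.ip_comm _ _
  by_cases hb : b ∈ Bd K (ip C (al i) l)
  · left
    refine ⟨hb, M4 l g hg (hC.sr i) b hb, ?_⟩
    obtain ⟨g', hg'⟩ := T1 (l - ip C (al i) l • al i)
    refine ⟨g', hg', ?_⟩
    have h5 := T5 l g g' (hC.sr i) hg (by rw [hC.sr_val, hcomm]; exact hg')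
    rw [smul_pt, h5, pt_mul_mem _ _ (M2 _).1]
  · right
    have hb0 : b ≠ 0 := by
      rintro rfl
      exact hb (F1 _)
    obtain ⟨m, u, hbu, hu0, hu1, hune, hbm⟩ := F9 b hb0
    have hm : b ∈ Bd K m := by
      rw [hbu, F8]
      exact hu0
    have hlt : ip C (al i) l < m := by
      by_contra hle
      push Not at hle
      exact hb (F5 _ _ _ hle hm)
    refine ⟨m, hlt, hm, hbm, ?_⟩
    set β := hC.sr i with hβ
    obtain ⟨g1, hg1⟩ := T1 (l - ip C l β.1 • β.1)
    obtain ⟨g', hg'⟩ := T1 (l - m • al i)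
    refine ⟨g', hg', ?_⟩
    have hβ2 : ip C β.1 β.1 = 2 := β.2
    -- reflection of `g`
    have e1 : wg hC β (1 : FF K) * g = g1 * wg hC β (1 : FF K) := T5 l g g1 β hg hg1
    -- reflection of `g1`
    have hg1' : IsTor ((l - ip C l β.1 • β.1) -
        ip C (l - ip C l β.1 • β.1) β.1 • β.1) g := by
      have : (l - ip C l β.1 • β.1) - ip C (l - ip C l β.1 • β.1) β.1 • β.1 = l := by
        rw [ip_sub_left, ip_smul_left, hβ2]
        module
      rw [this]
      exact hg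
    have e2 : wg hC β (1 : FF K) * g1 = g * wg hC β (1 : FF K) := T5 _ g1 g β hg1 hg1'
    -- conjugation of the root element
    have e3 : wg hC β (1 : FF K) * xg hC β b = xg hC β.neg b * wg hC β (1 : FF K) := by
      have h := (hRC r C hC K β 1 one_ne_zero b).1
      rw [one_pow, inv_one, one_mul] at h
      rw [← h]
      group
    -- the opposite root element
    have hbi : b⁻¹ ≠ 0 := inv_ne_zero hb0
    have e4 : xg hC β.neg b = xg hC β (-b⁻¹) * wg hC β b⁻¹ * xg hC β (-b⁻¹) := by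
      unfold wg
      rw [inv_inv, ← xg_inv]
      group
    -- `x_β (-b⁻¹)` fixes `pt g1`
    have hbinv : b⁻¹ = tt K ^ (-m) * u⁻¹ := by
      rw [hbu, mul_inv, ← zpow_neg]
    have hip1 : ip C β.1 (l - ip C l β.1 • β.1) = - ip C (al i) l := by
      rw [ip_sub_right, ip_smul_right, hβ2, hC.ip_comm l β.1]
      show ip C (al i) l - ip C (al i) l * 2 = _
      ring
    have e5 : xg hC β (-b⁻¹) • pt g1 = pt g1 := by
      refine M4 _ g1 hg1 β _ ?_
      rw [hip1]
      apply F3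
      refine F5 (-m) _ _ (by omega) ?_
      rw [hbinv, F8]
      exact hu1
    -- the diagonal element
    have e6 : (wg hC β b⁻¹ * (wg hC β (1 : FF K))⁻¹) * g =
        g' * (wg hC β u⁻¹ * (wg hC β (1 : FF K))⁻¹) := by
      refine grp_ext fun v => ?_
      have h1 := hRH r C hC K β b⁻¹ hbi
      have h2 := hRH r C hC K β u⁻¹ (inv_ne_zero hune)
      show (wg hC β b⁻¹ * (wg hC β (1 : FF K))⁻¹).1 (g.1 v) =
        g'.1 ((wg hC β u⁻¹ * (wg hC β (1 : FF K))⁻¹).1 v)
      rw [h1, h2, hg, hg']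
      refine Prod.ext rfl ?_
      funext γ
      show b⁻¹ ^ ip C β.1 γ.1 * (tt K ^ ip C γ.1 l * v.2 γ) =
        tt K ^ ip C γ.1 (l - m • al i) * (u⁻¹ ^ ip C β.1 γ.1 * v.2 γ)
      have h3 : ip C γ.1 (l - m • al i) = ip C γ.1 l + (-m) * ip C β.1 γ.1 := by
        rw [ip_sub_right, ip_smul_right, hC.ip_comm β.1 γ.1]
        show ip C γ.1 l - m * ip C γ.1 (al i) = ip C γ.1 l + -m * ip C γ.1 (al i)
        ring
      rw [hbinv, mul_zpow, ← zpow_mul, h3, zpow_add₀ F7]
      ring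
    have e7 : wg hC β b⁻¹ • pt g1 = pt g' := by
      have h1 : wg hC β b⁻¹ * g1 = (wg hC β b⁻¹ * (wg hC β (1 : FF K))⁻¹) * g *
          wg hC β (1 : FF K) := by
        have : (wg hC β (1 : FF K))⁻¹ * g = g1 * (wg hC β (1 : FF K))⁻¹ := by
          rw [inv_mul_eq_iff_eq_mul, ← mul_assoc, e2, mul_inv_cancel_right]
        rw [mul_assoc, mul_assoc, ← mul_assoc (wg hC β (1 : FF K))⁻¹ g, this,
          inv_mul_cancel_right]
      rw [smul_pt, h1, pt_mul_mem _ _ (M2 β).1, e6, pt_mul_mem]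
      exact M3 β u⁻¹ (inv_ne_zero hune) hu1 (by rw [inv_inv]; exact hu0)
    calc wg hC β (1 : FF K) • xg hC β b • pt g
        = pt (wg hC β (1 : FF K) * xg hC β b * g) := by
          rw [smul_pt, smul_pt, mul_assoc]
      _ = pt (xg hC β.neg b * (g1 * wg hC β (1 : FF K))) := by
          rw [e3, mul_assoc, e1]
      _ = xg hC β.neg b • pt g1 := by
          rw [← mul_assoc, pt_mul_mem _ _ (M2 β).1, smul_pt]
      _ = xg hC β (-b⁻¹) • wg hC β b⁻¹ • xg hC β (-b⁻¹) • pt g1 := by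
          rw [e4, mul_smul, mul_smul]
      _ = xg hC β (-b⁻¹) • pt g' := by
          rw [e5, e7]

end Pool.Agent.DEN.H64
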