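import Pool.Agent.Helper22_DEN.Stmt

/-!
# ROOTD: descent to the simple roots (MP_eadad4_nt)
-/

open scoped BigOperators

namespace Pool.Agent.DEN.H64

variable {r : ℕ} {C : Matrix (Fin r) (Fin r) ℤ}

theorem ip_eq_sum (x y : Fin r → ℤ) : ip C x y = ∑ j, ip C x (al j) * y j := by
  unfold ip
  rw [Finset.sum_comm]
  refine Finset.sum_congr rfl fun j _ => ?_
  rw [Finset.sum_mul]
  refine Finset.sum_congr rfl fun i _ => ?_
  simp [al, Pi.single_apply]

theorem al_self (i : Fin r) : al i i = 1 := by simp [al]

theorem al_ne {i j : Fin r} (h : j ≠ i) : al i j = 0 := by simp [al, h]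

/-- a positive root different from `α_i` has another positive coordinate -/
theorem exists_pos (hC : SimplyLaced C) {i : Fin r} {β : Rt C} (hβ : β.Pos) (hne : β ≠ hC.sr i) :
    ∃ j, j ≠ i ∧ 0 < β.1 j := by
  by_contra h
  push Not at h
  have h0 : ∀ j, j ≠ i → β.1 j = 0 := fun j hj => le_antisymm (h j hj) (hβ j)
  have h1 : β.1 = β.1 i • al i := by
    funext j
    rw [Pi.smul_apply, smul_eq_mul]
    by_cases hj : j = i
    · subst hj
      rw [al_self, mul_one]
    · rw [h0 j hj, al_ne hj, mul_zero]
  have h2 := β.2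
  rw [h1, ip_smul_left, ip_smul_right, ip_al_al, hC.diag] at h2
  have h3 : β.1 i * β.1 i = 1 := by linarith
  have h4 : β.1 i = 1 := by
    have := hβ i
    nlinarith
  apply hne
  apply Subtype.ext
  rw [h1, h4, one_smul]
  rfl

theorem rootd (hS : RootSignStmt) (hF : RootFinStmt) : RootDescStmt := by
  intro r C hC
  obtain ⟨S1, S2, S3, S4⟩ := hS r C hC
  have key : ∀ (i : Fin r) (β γ : Rt C), β.Pos → β ≠ hC.sr i →
      γ.1 = β.1 - ip C β.1 (al i) • al i → γ.Pos ∧ γ ≠ hC.sr i := by
    intro i β γ hβ hne hγ
    obtain ⟨j, hj, hpos⟩ := exists_pos hC hβ hne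
    have h1 : γ.1 j = β.1 j := by
      rw [hγ, Pi.sub_apply, Pi.smul_apply, al_ne hj, smul_zero, sub_zero]
    constructor
    · rcases S1 γ with h | h
      · exact h
      · have := h j
        rw [Rt.neg_val, Pi.neg_apply, h1] at this
        omega
    · intro h
      have h2 : γ.1 j = al i j := by rw [h]; rfl
      rw [al_ne hj, h1] at h2
      omega
  refine ⟨?_, key, ?_⟩
  · intro β hβ
    have h1 : ∃ i, 0 < ip C β.1 (al i) * β.1 i := by
      by_contra h
      push Not at h
      have h2 := ip_eq_sum (C := C) β.1 β.1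
      rw [β.2] at h2
      have h3 : ∑ j, ip C β.1 (al j) * β.1 j ≤ 0 := Finset.sum_nonpos fun j _ => h j
      omega
    obtain ⟨i, hi⟩ := h1
    have hβi := hβ i
    have h2 : 0 < ip C β.1 (al i) := by
      by_contra h
      push Not at h
      have := mul_nonpos_of_nonpos_of_nonneg h hβi
      omega
    have h3 : 0 < β.1 i := by
      rcases hβi.lt_or_eq with h | h
      · exact h
      · rw [← h, mul_zero] at hi
        omega
    have hb : ip C β.1 (al i) ≤ 2 := (hC.ip_bound β (hC.sr i)).2
    by_cases h4 : ip C β.1 (al i) = 2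
    · left
      exact ⟨i, hC.ip_eq_two h4⟩
    · right
      have h5 : ip C β.1 (al i) = 1 := by omega
      refine ⟨i, h5, ?_⟩
      have h6 : ip C (β.1 - al i) (β.1 - al i) = 2 := hC.ip_sub_self (γ := hC.sr i) h5
      rcases S1 ⟨β.1 - al i, h6⟩ with h | h
      · exact h
      · exfalso
        have h7 : ∀ j, β.1 j ≤ al i j := by
          intro j
          have h9 : 0 ≤ -(β.1 j - al i j) := h j
          omega
        have h8 : β.1 = al i := by
          funext j
          by_cases hj : j = i
          · subst hj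
            have := h7 j
            rw [al_self] at this ⊢
            omega
          · have := h7 j
            rw [al_ne hj] at this ⊢
            exact le_antisymm this (hβ j)
        rw [h8, ip_al_al, hC.diag] at h5
        omega
  · intro i
    have hfin := hF r C hC
    classical
    have : Fintype {β : Rt C // β.Pos} := Fintype.ofFinite _
    rw [finsum_eq_sum_of_fintype]
    have hsp : (hC.sr i).Pos := by
      intro j
      show 0 ≤ al i j
      by_cases hj : j = i
      · subst hj
        rw [al_self]
        omega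
      · rw [al_ne hj]
    rw [← Finset.add_sum_erase Finset.univ _ (Finset.mem_univ (⟨hC.sr i, hsp⟩ : {β : Rt C // β.Pos}))]
    have hroot : ∀ β : Rt C, ip C (β.1 - ip C β.1 (al i) • al i)
        (β.1 - ip C β.1 (al i) • al i) = 2 := by
      intro β
      simp only [ip_sub_left, ip_sub_right, ip_smul_left, ip_smul_right, ip_al_al, hC.diag, β.2,
        hC.ip_comm (al i) β.1]
      ring
    have hmem : ∀ a ∈ Finset.univ.erase (⟨hC.sr i, hsp⟩ : {β : Rt C // β.Pos}),
        a.1 ≠ hC.sr i := by
      intro a ha h
      rw [Finset.mem_erase] at ha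
      exact ha.1 (Subtype.ext h)
    have hzero : ∑ x ∈ Finset.univ.erase (⟨hC.sr i, hsp⟩ : {β : Rt C // β.Pos}),
        ip C x.1.1 (al i) = 0 := by
      refine Finset.sum_involution
        (fun a ha => ⟨⟨_, hroot a.1⟩, (key i a.1 ⟨_, hroot a.1⟩ a.2 (hmem a ha) rfl).1⟩) ?_ ?_ ?_ ?_
      · intro a ha
        show ip C a.1.1 (al i) + ip C (a.1.1 - ip C a.1.1 (al i) • al i) (al i) = 0
        rw [ip_sub_left, ip_smul_left, ip_al_al, hC.diag]
        ring
      · intro a ha hne h
        apply hne
        have h1 := congrArg (fun b : {β : Rt C // β.Pos} => b.1.1 i) h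
        simp only [Pi.sub_apply, Pi.smul_apply, al_self, smul_eq_mul, mul_one] at h1
        omega
      · intro a ha
        rw [Finset.mem_erase]
        refine ⟨?_, Finset.mem_univ _⟩
        intro h
        exact (key i a.1 ⟨_, hroot a.1⟩ a.2 (hmem a ha) rfl).2 (congrArg Subtype.val h)
      · intro a ha
        apply Subtype.ext
        apply Subtype.ext
        show (a.1.1 - ip C a.1.1 (al i) • al i) -
          ip C (a.1.1 - ip C a.1.1 (al i) • al i) (al i) • al i = a.1.1
        rw [ip_sub_left, ip_smul_left, ip_al_al, hC.diag]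
        module
    rw [hzero, add_zero]
    show ip C (al i) (al i) = 2
    rw [ip_al_al, hC.diag]

end Pool.Agent.DEN.H64
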